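import Mathlib

/-!
# Torsion-free groups with a central copy of the `p`-adic integers and finite exponent quotient

If `G` is a torsion-free Hausdorff topological group which has a central subgroup topologically
isomorphic to `ℤ_p`, modulo which `G` has finite exponent, then every subgroup of `G` is minimal.

Idea: if `x` lies outside this subgroup `Z`, the first power `x ^ m` in `Z` lies outside `p Z`, and
`m ≤ N`; so elements outside `Z` cannot converge to the identity in any Hausdorff group topology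
which induces the `p`-adic topology on the intersection with `Z`, and every coarser one does.
-/

set_option autoImplicit false

namespace Pool.Agent.Results.MP_7f190d_al.FiniteExponentQuotient

open Topology Filter

variable {p : ℕ} [Fact p.Prime] {G : Type*} [Group G]

/-- elements outside the central subgroup have a power of small exponent which is a unit of `ℤ_p` -/
lemma exists_pow_unit (htf : ∀ g : G, IsOfFinOrder g → g = 1)
    (φ : Multiplicative ℤ_[p] →* G) (hcent : φ.range ≤ Subgroup.center G)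
    (N : ℕ) (hN : N ≠ 0) (hexp : ∀ g : G, g ^ N ∈ φ.range) (x : G) (hx : x ∉ φ.range) :
    ∃ m ≤ N, ∃ z : ℤ_[p], ¬ ‖z‖ < 1 ∧ x ^ m = φ (Multiplicative.ofAdd z) := by
  classical
  have hex : ∃ m, 0 < m ∧ x ^ m ∈ φ.range := ⟨N, Nat.pos_of_ne_zero hN, hexp x⟩
  obtain ⟨hm0, hm⟩ := Nat.find_spec hex
  set m := Nat.find hex with hmdef
  have hmN : m ≤ N := Nat.find_min' hex ⟨Nat.pos_of_ne_zero hN, hexp x⟩
  have hm1 : m ≠ 1 := by
    intro h
    rw [h, pow_one] at hm
    exact hx hm
  obtain ⟨l, hl, k, hk⟩ := Nat.exists_prime_and_dvd hm1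
  have hk0 : 0 < k := by
    rcases Nat.eq_zero_or_pos k with h | h
    · rw [h, mul_zero] at hk; omega
    · exact h
  have hkm : k < m := by
    rw [hk]
    have := hl.two_le
    nlinarith
  have hy : x ^ k ∉ φ.range := fun h => Nat.find_min hex hkm ⟨hk0, h⟩
  obtain ⟨z, hz⟩ := hm
  -- the class `z` is not divisible by `l`
  have hndvd : ∀ z' : ℤ_[p], Multiplicative.toAdd z ≠ (l : ℤ_[p]) * z' := by
    intro z' hz'
    apply hy
    have h1 : (x ^ k) ^ l = (φ (Multiplicative.ofAdd z')) ^ l := by
      have h2 : z = (Multiplicative.ofAdd z') ^ l := by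
        rw [← ofAdd_nsmul, nsmul_eq_mul, ← hz', ofAdd_toAdd]
      rw [← pow_mul, mul_comm k l, ← hk, ← hz, ← map_pow, h2]
    have hc : Commute (x ^ k) (φ (Multiplicative.ofAdd z'))⁻¹ := by
      have h2 := hcent (show (φ (Multiplicative.ofAdd z'))⁻¹ ∈ φ.range from
        φ.range.inv_mem ⟨_, rfl⟩)
      exact (Subgroup.mem_center_iff.mp h2) (x ^ k)
    have h3 : x ^ k * (φ (Multiplicative.ofAdd z'))⁻¹ = 1 := by
      apply htf
      rw [isOfFinOrder_iff_pow_eq_one]
      refine ⟨l, hl.pos, ?_⟩
      rw [hc.mul_pow, h1, inv_pow, mul_inv_cancel]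
    exact ⟨_, (mul_inv_eq_one.mp h3).symm⟩
  have hlp : l = p := by
    by_contra hne
    have hu : IsUnit (l : ℤ_[p]) := by
      rw [PadicInt.isUnit_iff]
      have h1 : ¬ ‖(l : ℤ_[p])‖ < 1 := by
        rw [PadicInt.norm_natCast_lt_one_iff]
        intro hdvd
        exact hne ((Nat.prime_dvd_prime_iff_eq Fact.out hl).mp hdvd).symm
      exact le_antisymm (PadicInt.norm_le_one _) (not_lt.mp h1)
    obtain ⟨u, hu⟩ := hu
    refine hndvd (((u⁻¹ : ℤ_[p]ˣ) : ℤ_[p]) * Multiplicative.toAdd z) ?_
    rw [← hu, ← mul_assoc, Units.mul_inv, one_mul]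
  refine ⟨m, hmN, Multiplicative.toAdd z, ?_, hz.symm⟩
  rw [PadicInt.norm_lt_one_iff_dvd]
  rintro ⟨z', hz'⟩
  exact hndvd z' (by rw [hlp]; exact hz')

/-- In a coarser Hausdorff group topology on a subgroup `H` the `p`-adic topology on the
intersection with the central subgroup is unchanged. -/
lemma exists_nhd [tG : TopologicalSpace G] [IsTopologicalGroup G]
    (φ : Multiplicative ℤ_[p] →* G) (hφc : Continuous φ) (hφi : Function.Injective φ)
    (hcent : φ.range ≤ Subgroup.center G) (H : Subgroup G) (σ : TopologicalSpace H)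
    (hσ : @IsTopologicalGroup H σ _) (hσ2 : @T2Space H σ)
    (hle : TopologicalSpace.induced (Subtype.val : H → G) tG ≤ σ)
    (O : Set ℤ_[p]) (hO : IsOpen O) (hO0 : (0 : ℤ_[p]) ∈ O) :
    ∃ U ∈ @nhds H σ 1, ∀ h ∈ U, ∀ y : ℤ_[p], (h : G) = φ (Multiplicative.ofAdd y) → y ∈ O := by
  classical
  have hφc' : Continuous fun y : ℤ_[p] => φ (Multiplicative.ofAdd y) :=
    hφc.comp continuous_ofAdd
  by_cases hH : ∀ w : ℤ_[p], φ (Multiplicative.ofAdd w) ∈ H → w = 0
  · refine ⟨Set.univ, Filter.univ_mem, fun h _ y hy => ?_⟩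
    rw [hH y (by rw [← hy]; exact h.2)]
    exact hO0
  push Not at hH
  obtain ⟨w, hwH, hw0⟩ := hH
  -- the traces of the neighbourhoods
  let ι := {U : Set H // U ∈ @nhds H σ 1}
  let A : ι → Set ℤ_[p] := fun U => {y | ∃ h ∈ U.1, (h : G) = φ (Multiplicative.ofAdd y)}
  have hι : Nonempty ι := ⟨⟨Set.univ, Filter.univ_mem⟩⟩
  have hdir : Directed (· ⊇ ·) fun U : ι => closure (A U) := by
    intro U V
    refine ⟨⟨U.1 ∩ V.1, Filter.inter_mem U.2 V.2⟩, ?_, ?_⟩
    · exact closure_mono fun y ⟨h, hh, he⟩ => ⟨h, hh.1, he⟩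
    · exact closure_mono fun y ⟨h, hh, he⟩ => ⟨h, hh.2, he⟩
  -- the intersection of the closures is closed under differences
  have hsub : ∀ a b : ℤ_[p], (∀ U : ι, a ∈ closure (A U)) → (∀ U : ι, b ∈ closure (A U)) →
      ∀ U : ι, a - b ∈ closure (A U) := by
    intro a b ha hb U
    have hdiv : Tendsto (fun q : H × H => q.1 / q.2) (@nhds H σ 1 ×ˢ @nhds H σ 1)
        (@nhds H σ 1) := by
      have h1 : @Continuous (H × H) H (@instTopologicalSpaceProd H H σ σ) σ
          (fun q : H × H => q.1 / q.2) := @continuous_div' H σ _ inferInstance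
      have h2 := @Continuous.tendsto (H × H) H (@instTopologicalSpaceProd H H σ σ) σ _ h1 (1, 1)
      rw [@nhds_prod_eq H H σ σ] at h2
      simpa using h2
    have h3 := hdiv U.2
    rw [Filter.mem_map, Filter.mem_prod_iff] at h3
    obtain ⟨V1, hV1, V2, hV2, hV⟩ := h3
    have ha' := ha ⟨V1, hV1⟩
    have hb' := hb ⟨V2, hV2⟩
    refine map_mem_closure₂ continuous_sub ha' hb' ?_
    rintro s ⟨h, hh, hs⟩ t ⟨h', hh', ht⟩
    refine ⟨h / h', hV (Set.mk_mem_prod hh hh'), ?_⟩
    rw [Subgroup.coe_div, hs, ht, ← map_div, ← ofAdd_sub]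
  -- elements of `H` in the intersection are trivial
  have htriv : ∀ y : ℤ_[p], (∀ U : ι, y ∈ closure (A U)) → φ (Multiplicative.ofAdd y) ∈ H →
      y = 0 := by
    intro y hy hyH
    by_contra hy0
    let h : H := ⟨φ (Multiplicative.ofAdd y), hyH⟩
    have hh1 : h ≠ 1 := by
      intro he
      apply hy0
      have h1 : φ (Multiplicative.ofAdd y) = φ 1 := by
        rw [map_one]
        exact congrArg Subtype.val he
      exact congrArg Multiplicative.toAdd (hφi h1)
    obtain ⟨U, hU, hhU⟩ : ∃ U ∈ @nhds H σ 1, h ∉ U := by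
      have hT1 : @T1Space H σ := @T2Space.t1Space H σ hσ2
      refine ⟨{h}ᶜ, ?_, by simp⟩
      exact (@isOpen_compl_singleton H σ hT1 h).mem_nhds (fun h' => hh1 h'.symm)
    have hdiv : Tendsto (fun q : H × H => q.1 / q.2) (@nhds H σ 1 ×ˢ @nhds H σ 1)
        (@nhds H σ 1) := by
      have h1 : @Continuous (H × H) H (@instTopologicalSpaceProd H H σ σ) σ
          (fun q : H × H => q.1 / q.2) := @continuous_div' H σ _ inferInstance
      have h2 := @Continuous.tendsto (H × H) H (@instTopologicalSpaceProd H H σ σ) σ _ h1 (1, 1)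
      rw [@nhds_prod_eq H H σ σ] at h2
      simpa using h2
    have h3 := hdiv hU
    rw [Filter.mem_map, Filter.mem_prod_iff] at h3
    obtain ⟨V1, hV1, V2, hV2, hV⟩ := h3
    -- `V2` is a neighbourhood in the original topology
    have hV2' : V2 ∈ @nhds H (TopologicalSpace.induced (Subtype.val : H → G) tG) 1 :=
      (nhds_mono hle) hV2
    rw [nhds_induced, Filter.mem_comap] at hV2'
    obtain ⟨W, hW, hWV⟩ := hV2'
    have hyc := hy ⟨V1, hV1⟩
    rw [mem_closure_iff_nhds] at hyc
    have hnb : (fun y' : ℤ_[p] => φ (Multiplicative.ofAdd (y' - y))) ⁻¹' W ∈ 𝓝 y := by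
      have hc : Continuous fun y' : ℤ_[p] => φ (Multiplicative.ofAdd (y' - y)) :=
        hφc'.comp (continuous_id.sub continuous_const)
      apply hc.continuousAt
      simpa using hW
    obtain ⟨y', hy'W, h', hh', hy'⟩ := hyc _ hnb
    have hW2 : h' / h ∈ V2 := by
      apply hWV
      change ((h' / h : H) : G) ∈ W
      rw [Subgroup.coe_div, hy']
      change φ (Multiplicative.ofAdd y') / φ (Multiplicative.ofAdd y) ∈ W
      rw [← map_div, ← ofAdd_sub]
      exact hy'W
    have hkey : h' / (h' / h) = h := by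
      apply Subtype.ext
      have hc := (Subgroup.mem_center_iff.mp (hcent (show (h' : G) ∈ φ.range from
        ⟨_, hy'.symm⟩))) (h : G)
      simp only [Subgroup.coe_div]
      rw [div_div_eq_mul_div, ← hc, mul_div_cancel_right]
    apply hhU
    rw [← hkey]
    exact hV (Set.mk_mem_prod hh' hW2)
  -- the intersection is trivial
  have hzero : ∀ z : ℤ_[p], (∀ U : ι, z ∈ closure (A U)) → z = 0 := by
    intro z hz
    by_contra hz0
    have h0 : ∀ U : ι, (0 : ℤ_[p]) ∈ closure (A U) := by
      intro U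
      have := hsub z z hz hz U
      rwa [sub_self] at this
    have hneg : ∀ a : ℤ_[p], (∀ U : ι, a ∈ closure (A U)) → ∀ U : ι, -a ∈ closure (A U) := by
      intro a ha U
      have := hsub 0 a h0 ha U
      rwa [zero_sub] at this
    have hadd : ∀ a b : ℤ_[p], (∀ U : ι, a ∈ closure (A U)) → (∀ U : ι, b ∈ closure (A U)) →
        ∀ U : ι, a + b ∈ closure (A U) := by
      intro a b ha hb U
      have := hsub a (-b) ha (hneg b hb) U
      rwa [sub_neg_eq_add] at this
    have hnat : ∀ (k : ℕ) (U : ι), (k : ℤ_[p]) * z ∈ closure (A U) := by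
      intro k
      induction k with
      | zero => intro U; simpa using h0 U
      | succ k ih =>
        intro U
        have := hadd _ _ ih hz U
        push_cast
        rw [add_mul, one_mul]
        exact this
    have hall : ∀ (t : ℤ_[p]) (U : ι), t * z ∈ closure (A U) := by
      intro t U
      have hcl : IsClosed {t : ℤ_[p] | t * z ∈ closure (A U)} :=
        isClosed_closure.preimage (continuous_id.mul continuous_const)
      have hd : DenseRange (Nat.cast : ℕ → ℤ_[p]) := PadicInt.denseRange_natCast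
      have hsubset : Set.range (Nat.cast : ℕ → ℤ_[p]) ⊆ {t : ℤ_[p] | t * z ∈ closure (A U)} := by
        rintro _ ⟨k, rfl⟩
        exact hnat k U
      have := hcl.closure_subset_iff.mpr hsubset
      rw [hd.closure_range] at this
      exact this (Set.mem_univ t)
    -- a multiple of `w` is a multiple of `z`
    have hzu := PadicInt.unitCoeff_spec hz0
    set u := PadicInt.unitCoeff hz0
    set i := z.valuation
    have hmul : ((p : ℤ_[p]) ^ i) * w = (w * ((u⁻¹ : ℤ_[p]ˣ) : ℤ_[p])) * z := by
      rw [hzu]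
      have hu : ((u⁻¹ : ℤ_[p]ˣ) : ℤ_[p]) * (u : ℤ_[p]) = 1 := Units.inv_mul u
      linear_combination (- (p : ℤ_[p]) ^ i * w) * hu
    have h1 : ∀ U : ι, ((p : ℤ_[p]) ^ i) * w ∈ closure (A U) := by
      intro U
      rw [hmul]
      exact hall _ U
    have h2 : φ (Multiplicative.ofAdd (((p : ℤ_[p]) ^ i) * w)) ∈ H := by
      have e : Multiplicative.ofAdd (((p : ℤ_[p]) ^ i) * w) = (Multiplicative.ofAdd w) ^ (p ^ i) := by
        rw [← ofAdd_nsmul, nsmul_eq_mul]
        push_cast
        rfl
      rw [e, map_pow]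
      exact H.pow_mem hwH _
    have h3 := htriv _ h1 h2
    rcases mul_eq_zero.mp h3 with h4 | h4
    · have hp0 : (p : ℤ_[p]) ≠ 0 := by
        have := (Fact.out : p.Prime).ne_zero
        exact_mod_cast this
      exact pow_ne_zero _ hp0 h4
    · exact hw0 h4
  -- compactness
  obtain ⟨U, hU⟩ := (hO.isClosed_compl.isCompact).elim_directed_family_closed
    (fun U : ι => closure (A U)) (fun U => isClosed_closure) (by
      ext z
      simp only [Set.mem_inter_iff, Set.mem_compl_iff, Set.mem_iInter, Set.mem_empty_iff_false,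
        iff_false, not_and]
      intro hzO hz
      exact hzO (by rw [hzero z hz]; exact hO0)) hdir
  refine ⟨U.1, U.2, fun h hh y hy => ?_⟩
  by_contra hyO
  have : y ∈ Oᶜ ∩ closure (A U) := ⟨hyO, subset_closure ⟨h, hh, hy⟩⟩
  rw [hU] at this
  exact this

/-- A neighbourhood of the identity in a coarser Hausdorff group topology is contained in the
central subgroup. -/
lemma eventually_mem [tG : TopologicalSpace G] [IsTopologicalGroup G]
    (htf : ∀ g : G, IsOfFinOrder g → g = 1)
    (φ : Multiplicative ℤ_[p] →* G) (hφc : Continuous φ) (hφi : Function.Injective φ)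
    (hcent : φ.range ≤ Subgroup.center G) (N : ℕ) (hN : N ≠ 0)
    (hexp : ∀ g : G, g ^ N ∈ φ.range) (H : Subgroup G) (σ : TopologicalSpace H)
    (hσ : @IsTopologicalGroup H σ _) (hσ2 : @T2Space H σ)
    (hle : TopologicalSpace.induced (Subtype.val : H → G) tG ≤ σ) :
    ∀ᶠ h : H in @nhds H σ 1, (h : G) ∈ φ.range := by
  obtain ⟨U, hU, hU1⟩ := exists_nhd φ hφc hφi hcent H σ hσ hσ2 hle {y | ‖y‖ < 1}
    (isOpen_lt continuous_norm continuous_const) (by simp)
  have hpow : ∀ m : ℕ, ∀ᶠ h in @nhds H σ 1, h ^ m ∈ U := by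
    intro m
    have hc : @Continuous H H σ σ (fun h => h ^ m) := @continuous_pow H σ _ inferInstance m
    have h1 := @Continuous.tendsto H H σ σ _ hc 1
    rw [one_pow] at h1
    exact h1 hU
  have hV : ∀ᶠ h in @nhds H σ 1, ∀ m ∈ Set.Iic N, h ^ m ∈ U :=
    (Filter.eventually_all_finite (Set.finite_Iic N)).mpr fun m _ => hpow m
  filter_upwards [hV] with h hh
  by_contra hcon
  obtain ⟨m, hm, z, hz, hz'⟩ := exists_pow_unit htf φ hcent N hN hexp (h : G) hcon
  exact hz (hU1 (h ^ m) (hh m hm) z (by rw [Subgroup.coe_pow]; exact hz'))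

/-- Let `G` be a Hausdorff topological group without nontrivial elements of finite order. Suppose
that `φ` is an injective continuous homomorphism from `ℤ_p` to the center of `G` and that `g ^ N`
lies in the image of `φ` for every `g`, for some fixed `N ≠ 0`. Then `G` is locally compact, not
discrete, and every subgroup `H` of `G` is minimal: every Hausdorff group topology on `H` which is
coarser than the subspace topology is equal to it. -/
theorem result (p : ℕ) [Fact p.Prime] (G : Type*) [Group G] [tG : TopologicalSpace G]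
    [IsTopologicalGroup G] [T2Space G] (htf : ∀ g : G, IsOfFinOrder g → g = 1)
    (φ : Multiplicative ℤ_[p] →* G) (hφc : Continuous φ) (hφi : Function.Injective φ)
    (hcent : φ.range ≤ Subgroup.center G)
    (N : ℕ) (hN : N ≠ 0) (hexp : ∀ g : G, g ^ N ∈ φ.range) :
    LocallyCompactSpace G ∧ ¬ DiscreteTopology G ∧
    ∀ H : Subgroup G, ∀ τ : TopologicalSpace H,
      @IsTopologicalGroup H τ _ → @T2Space H τ →
      TopologicalSpace.induced (Subtype.val : H → G) tG ≤ τ →
      τ = TopologicalSpace.induced (Subtype.val : H → G) tG := by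
  have hφc' : Continuous fun y : ℤ_[p] => φ (Multiplicative.ofAdd y) :=
    hφc.comp continuous_ofAdd
  refine ⟨?_, ?_, ?_⟩
  · -- local compactness
    have h1 := eventually_mem htf φ hφc hφi hcent N hN hexp ⊤ _ inferInstance
      inferInstance le_rfl
    have h2 : Set.range (fun y : ℤ_[p] => φ (Multiplicative.ofAdd y)) ∈ 𝓝 (1 : G) := by
      rw [nhds_induced, Filter.eventually_comap] at h1
      have h3 : ∀ᶠ g in 𝓝 (1 : G), g ∈ φ.range := by
        filter_upwards [h1] with g hg
        exact hg ⟨g, Subgroup.mem_top g⟩ rfl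
      filter_upwards [h3] with g hg
      obtain ⟨z, hz⟩ := hg
      exact ⟨Multiplicative.toAdd z, hz⟩
    exact (isCompact_range hφc').locallyCompactSpace_of_mem_nhds_of_group h2
  · intro hdisc
    have h1 : (fun y : ℤ_[p] => φ (Multiplicative.ofAdd y)) ⁻¹' {1} ∈ 𝓝 (0 : ℤ_[p]) := by
      apply hφc'.continuousAt
      rw [nhds_discrete]
      simp
    obtain ⟨ε, hε, hball⟩ := Metric.mem_nhds_iff.mp h1
    have hp1 : (1 : ℝ) < p := by
      have := (Fact.out : p.Prime).one_lt
      exact_mod_cast this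
    obtain ⟨n, hn⟩ := exists_pow_lt_of_lt_one hε (inv_lt_one_of_one_lt₀ hp1)
    have h2 : ((p : ℤ_[p]) ^ n) ∈ Metric.ball (0 : ℤ_[p]) ε := by
      rw [Metric.mem_ball, dist_zero_right, norm_pow, PadicInt.norm_p]
      exact hn
    have h3 := hball h2
    have h4 : Multiplicative.ofAdd ((p : ℤ_[p]) ^ n) = 1 := by
      apply hφi
      rw [map_one]
      exact h3
    have h5 : (p : ℤ_[p]) ^ n = 0 := congrArg Multiplicative.toAdd h4
    have hp0 : (p : ℤ_[p]) ≠ 0 := by
      have := (Fact.out : p.Prime).ne_zero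
      exact_mod_cast this
    exact pow_ne_zero _ hp0 h5
  · intro H σ hσ hσ2 hle
    have hind : @IsTopologicalGroup H (TopologicalSpace.induced (Subtype.val : H → G) tG) _ :=
      topologicalGroup_induced (H.subtype)
    refine IsTopologicalGroup.ext hσ hind (le_antisymm ?_ (nhds_mono hle))
    intro S hS
    rw [nhds_induced, Filter.mem_comap] at hS
    obtain ⟨W, hW, hWS⟩ := hS
    have hVZ := eventually_mem htf φ hφc hφi hcent N hN hexp H σ hσ hσ2 hle
    -- the small ball
    obtain ⟨U', hU', hU1'⟩ := exists_nhd φ hφc hφi hcent H σ hσ hσ2 hle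
      (interior ((fun y : ℤ_[p] => φ (Multiplicative.ofAdd y)) ⁻¹' W)) isOpen_interior (by
        rw [mem_interior_iff_mem_nhds]
        apply hφc'.continuousAt
        simpa using hW)
    filter_upwards [hVZ, hU'] with h hh hh'
    obtain ⟨z, hz⟩ := hh
    apply hWS
    have h1 := interior_subset (hU1' h hh' (Multiplicative.toAdd z) hz.symm)
    change (h : G) ∈ W
    rw [← hz]
    exact h1

end Pool.Agent.Results.MP_7f190d_al.FiniteExponentQuotient
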