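import Pool.Agent.Lib.MP_7f190d_al.H49.Exist

/-!
# Non-discrete hereditarily minimal locally compact groups with proper nontrivial center

For each odd prime `p` there is a torsion-free such group whose center is open and topologically
isomorphic to `ℤ_p`.
-/

set_option autoImplicit false

namespace Pool.Agent.Results.MP_7f190d_al.OddPrimes

/-- `τ` is a Hausdorff group topology on `G` and there is no strictly coarser Hausdorff group
topology on `G` (`τ < σ` means that `σ` is strictly coarser than `τ`). -/
def MinimalGroup (G : Type) [Group G] (τ : TopologicalSpace G) : Prop :=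
  @IsTopologicalGroup G τ _ ∧ @T2Space G τ ∧
    ∀ σ : TopologicalSpace G, @IsTopologicalGroup G σ _ → @T2Space G σ → ¬ τ < σ

/-- Every subgroup of `G`, closed or not, is minimal with the subspace topology. -/
def HereditarilyMinimal (G : Type) [Group G] (τ : TopologicalSpace G) : Prop :=
  ∀ H : Subgroup G, MinimalGroup H (TopologicalSpace.induced (Subtype.val : H → G) τ)

/-- For every odd prime `p` there is a Hausdorff topological group `G` which is locally compact,
neither discrete nor compact, hereditarily minimal and torsion-free, with `{1} ≠ Z(G) ≠ G`, such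
that `Z(G)` is open and topologically isomorphic to `ℤ_p`, and `G / Z(G)` is an infinite group of
exponent dividing a power of `p` which is generated by two elements. -/
theorem result (p : ℕ) [Fact p.Prime] (hp : p ≠ 2) :
    ∃ (G : Type) (_ : Group G) (τ : TopologicalSpace G),
      IsTopologicalGroup G ∧ T2Space G ∧ LocallyCompactSpace G ∧
      ¬ DiscreteTopology G ∧ ¬ CompactSpace G ∧ HereditarilyMinimal G τ ∧
      Subgroup.center G ≠ ⊥ ∧ Subgroup.center G ≠ ⊤ ∧
      (∀ g : G, IsOfFinOrder g → g = 1) ∧
      IsOpen (Subgroup.center G : Set G) ∧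
      Nonempty (Subgroup.center G ≃ₜ* Multiplicative ℤ_[p]) ∧
      Infinite (G ⧸ Subgroup.center G) ∧
      (∃ k : ℕ, ∀ g : G, g ^ (p ^ k) ∈ Subgroup.center G) ∧
      ∃ x y : G, Subgroup.closure ({x, y} ∪ (Subgroup.center G : Set G)) = ⊤ := by
  obtain ⟨G, i1, τ, i3, i4, k, hlc, hnd, htf, hop, hiso, hexp, ⟨x, y, hxy, hgen⟩, hmin⟩ :=
    Pool.Agent.Lib.MP_7f190d_al.H49.exists_strong p inferInstance hp
  have hinf : Infinite (G ⧸ Subgroup.center G) := by
    by_contra hcon
    rw [not_infinite_iff_finite] at hcon
    exact hxy (Pool.Agent.Lib.MP_7f190d_al.H49.comm_of_finite htf hcon x y)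
  refine ⟨G, i1, τ, i3, i4, hlc, hnd, ?_, ?_, ?_, ?_, htf, hop, hiso, hinf, ⟨k, hexp⟩,
    ⟨x, y, hgen⟩⟩
  · intro hc
    have h1 : Finite (G ⧸ Subgroup.center G) := Subgroup.quotient_finite_of_isOpen _ hop
    exact not_finite (G ⧸ Subgroup.center G)
  · intro H
    refine ⟨topologicalGroup_induced H.subtype, inferInstance, ?_⟩
    intro σ hσ hσ2 hlt
    have h1 := hmin H σ hσ hσ2 hlt.le
    rw [h1] at hlt
    exact lt_irrefl _ hlt
  · intro hbot
    obtain ⟨e⟩ := hiso
    obtain ⟨z, hz⟩ := e.surjective (Multiplicative.ofAdd (1 : ℤ_[p]))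
    have h1 : (z : G) = 1 := Subgroup.mem_bot.mp (hbot.le z.2)
    have h2 : z = 1 := Subtype.ext h1
    rw [h2, map_one] at hz
    exact one_ne_zero (Multiplicative.ofAdd.injective hz).symm
  · intro htop
    apply hxy
    have h1 : y ∈ Subgroup.center G := by rw [htop]; exact Subgroup.mem_top _
    exact Subgroup.mem_center_iff.mp h1 x

end Pool.Agent.Results.MP_7f190d_al.OddPrimes
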